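import Pool.Agent.H773.CS.Asm
import Pool.Agent.H152.CS.Supp
import Pool.Agent.H967.CS.lev
import Pool.Agent.H597.CS.LAB
import Pool.Agent.H10.CS.Col
import Pool.Agent.H195.CS.D
import Pool.Agent.H25.CS.H
import Pool.Agent.H921.CS.Cls
import Pool.Agent.H331.CS.BIT
import Pool.Agent.H922.CS.Three
import Pool.Agent.H387.CS.C
import Pool.Agent.H100.CS.INJ
import Pool.Agent.H94.CS.MK
import Pool.Agent.H314.CS.NLP
import Pool.Agent.H660.CS.Nval
import Pool.Agent.H782.CS.Exact
import Pool.Agent.H703.CS.LP

/-!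
The basic-LP approximability threshold of a CSP need not be continuous at 1.

`theta F c = min {c, thetaStar F c}`, where `thetaStar F c` is the infimum of the values of the
instances of `CSP(F)` whose basic LP has optimum at least `c` (all definitions are in
`Pool.Agent.H773.CS.Defs`).
-/

namespace Pool.Agent.Results.MP_8ad0a3_lc.LPThresholdJump

open Pool.Agent.H773.CS

/-- There are a finite alphabet `Sg`, an arity `k ≥ 1` and a family `F` of predicates whose
threshold function is at most `7/20` at every `c < 1` and at least `9/20` at `1`. In particular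
the left limit at `1` exists and is smaller than the value at `1`. -/
theorem result : ∃ (Sg : Type) (_ : Fintype Sg) (_ : DecidableEq Sg) (k : ℕ)
    (F : Set ((Fin k → Sg) → Bool)), 1 ≤ k ∧ (∀ c : ℝ, c < 1 → theta F c ≤ 7/20) ∧
    9/20 ≤ theta F 1 ∧
    (∃ L : ℝ, Filter.Tendsto (theta F) (nhdsWithin 1 (Set.Iio 1)) (nhds L) ∧ L < theta F 1) ∧
    ¬ ContinuousWithinAt (theta F) (Set.Icc 0 1) 1 := by
  have hsupp : S_supp := Pool.Agent.H152.CS.t_supp
  have hlev := Pool.Agent.H967.CS.t_lev
  have hpi := Pool.Agent.H967.CS.t_pi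
  have hlab := Pool.Agent.H597.CS.t_lab hlev
  have hcol := Pool.Agent.H10.CS.t_col
  have hD := Pool.Agent.H195.CS.t_D
  have hH := Pool.Agent.H25.CS.t_H
  have hcls := Pool.Agent.H921.CS.t_cls hH
  have hbit := Pool.Agent.H331.CS.t_bit hD
  have hlabA := Pool.Agent.H331.CS.t_labA hD
  have hthree := Pool.Agent.H922.CS.t_three
  have hb := Pool.Agent.H922.CS.t_b
  have hc := Pool.Agent.H387.CS.t_c
  have hinj := Pool.Agent.H100.CS.t_inj
  have hmk : S_mk := Pool.Agent.H94.CS.t_mk
  have hpt := Pool.Agent.H94.CS.t_pt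
  have hlp := Pool.Agent.H703.CS.t_lp
  have hnlp := Pool.Agent.H314.CS.t_nlp hlp
  have hlb := t_lb hlabA hthree hc hb hcls
  have hnval := Pool.Agent.H660.CS.t_nval hpt hbit hlb hinj
  have hexact := Pool.Agent.H782.CS.t_exact hsupp hpi hlab hcol
  have hnear := t_near hmk hnlp hnval
  exact t_final hexact hnear hmk

end Pool.Agent.Results.MP_8ad0a3_lc.LPThresholdJump
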